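import Pool.Agent.H822R2.ESY.Final

set_option autoImplicit false

/-!
# Relative to a random oracle, no disjoint `NP` pair is `NP`-hard
-/

namespace Pool.Agent.Results.MP_80aaf5_lc.RandomOracle

open Pool.Agent.H628R3.RO Pool.Agent.H822R2.ESY

/-- For almost every oracle `A` there is a set `L` in `NP` relative to `A` such that every disjoint
`NP` pair relative to `A` has a separator `S` to which `L` does not reduce (relative to `A`) by
polynomial-time Turing reductions, not even by randomized ones with bounded error. -/
theorem result : ∀ᵐ A ∂randomOracle, ∃ L : Set (List Bool), IsNP A L ∧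
    ∀ B C : Set (List Bool), IsPair (IsNP A) B C → ∃ S : Oracle, (∀ q ∈ B, S q = true) ∧
      (∀ q ∈ C, S q = false) ∧ ¬ IsP (join A S) L ∧ ¬ IsBPP (join A S) L :=
  main

end Pool.Agent.Results.MP_80aaf5_lc.RandomOracle
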